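import Mathlib
import Pool.Agent.H55.AG.FinAGT

/-!
# Frege refutations of the Tseitin formulas of all graphs of bounded degree

`Ts D G ν c`: the Tseitin formula of the graph `G` with charge `c : V → Bool`; the variable of the edge
`g` is `ν g`. Its axioms are the clauses with at most `D` literals on the edges at one vertex `v` which
follow from the equation of `v` (the number of true edges at `v` is odd iff `c v = true`).
`TwLE G w`: the treewidth of `G` is at most `w`. All graphs are connected, with degrees at most `D` and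
an odd number of vertices with charge `true`, so that `Ts D G ν c` is contradictory. A refutation is a
derivation from `Ts D G ν c` that contains a formula and its negation.

* Lower bound. For every `D` and every real `e > 0` there is `ε > 0` such that for every `ℓ` and every
  large `w`, for all graphs with treewidth greater than `w`, all refutations with any sound axiom
  schemes of size at most `ℓ`, modus ponens and at most `w ^ ε` extension variables:
  if there are fewer than `2 ^ (w ^ ε)` lines then for all `N` with `1 ≤ N ≤ w ^ (1 - e)` there are more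
  than `N` different lines of size greater than `w ^ (2 - e) / N ^ 2`. More generally: let `Gs` be a
  finite set of arbitrary formulas. If every line is a Boolean combination of formulas in `Gs` and of
  at most `w'` formulas (which depend on the line) of total size at most `S`, where `1 ≤ S` and
  `(|Gs| + 1) ^ 2 (w' + 1) S ≤ w ^ (2 - e)`, then there are at least `2 ^ (w ^ ε)` lines.
* Upper bounds, in every complete Frege system `F` (every tautology is derivable; no extension
  variables). For every such graph with `n ≥ 2` vertices there is a refutation of total size at most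
  `C n ^ 2 (log n + 1) ^ 3`; if the treewidth is at most `k` there is a refutation with at most
  `(n + 2) ^ C` lines, all of size at most `C (k + 1) ^ 2 (log n + 1)`; for `n ≥ C` and every `N`
  with `1 ≤ N ≤ n` there is a refutation with at most `n ^ 4` lines, all of size at most `n ^ 5`, at most
  `(N - 1) n ^ e` different ones of size greater than `n ^ (2 + e) / N ^ 2`.

So lines of size `treewidth ^ (2 - o(1))` are necessary and `treewidth ^ 2 log n` suffices, for every graph
of bounded degree, and the total size is `n ^ (2 + o(1))` if the treewidth is `n ^ (1 - o(1))`.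
Sizes are lengths of the bit strings `Fm.enc`. The proof of the lower bound embeds
the hard multigraphs of `Pool/Agent/H90/PC` in every graph of large treewidth (`Pool/Agent/H55/AG`,
`embed`) and substitutes short parities for the variables.
-/

set_option autoImplicit false

namespace Pool.Agent.Results.MP_576eff_lc.AllGraphs

open Finset Classical Pool.Agent.H3.Frg Pool.Agent.H3.Frg2 Pool.Agent.H3.Frg4
  Pool.Agent.H90.UB Pool.Agent.H90.PC Pool.Agent.H55.AG

theorem result (D : ℕ) (e : ℝ) (he : 0 < e) :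
    (∃ ε : ℝ, 0 < ε ∧ ∀ ℓ : ℕ, ∃ w0 : ℕ, ∀ w, w0 ≤ w →
      ∀ (V : Type) [Fintype V] (G : SimpleGraph V), G.Connected → (∀ v, (nbG G v).card ≤ D) →
      ¬ TwLE G w → ∀ (ν : Sym2 V → ℕ), Set.InjOn ν G.edgeSet →
      ∀ (c : V → Bool), Odd (univ.filter fun v => c v = true).card →
      ∀ Sch : Set (Fm ℕ), (∀ ψ ∈ Sch, ψ.len ≤ ℓ ∧ ∀ x : ℕ → Bool, ψ.eval x = true) →
      ∀ (K : ℕ) (q : Fin K → ℕ) (Df : Fin K → Fm ℕ), (K : ℝ) ≤ (w : ℝ) ^ ε → ExtG G ν q Df →
      ∀ (L : ℕ) (pf : Fin L → Fm ℕ), IsDer Sch (Ts D G ν c ∪ ExtAx q Df) pf →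
      (∃ i j, pf i = Fm.neg (pf j)) →
      ((L : ℝ) < (2 : ℝ) ^ ((w : ℝ) ^ ε) → ∀ N : ℕ, 1 ≤ N → (N : ℝ) ≤ (w : ℝ) ^ (1 - e) →
        N < {A | (∃ i, A = pf i) ∧
          (w : ℝ) ^ (2 - e) / (N : ℝ) ^ 2 < (A.enc.length : ℝ)}.ncard) ∧
      ∀ (Gs : Finset (Fm ℕ)) (Q : Fin L → Finset (Fm ℕ)) (w' : ℕ) (S : ℝ), 1 ≤ S →
        ((Gs.card : ℝ) + 1) ^ 2 * (w' + 1) * S ≤ (w : ℝ) ^ (2 - e) →
        (∀ i, (Q i).card ≤ w' ∧ ((∑ B ∈ Q i, B.enc.length : ℕ) : ℝ) ≤ S ∧
          BC {A | A ∈ Gs ∨ A ∈ Q i} (pf i)) →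
        (2 : ℝ) ^ ((w : ℝ) ^ ε) ≤ L) ∧
    ∀ F : Set (Fm ℕ), Pool.Agent.H90.UB.Compl F → ∃ Cc : ℕ,
      ∀ (V : Type) [Fintype V] (G : SimpleGraph V), G.Connected → 2 ≤ Fintype.card V →
      (∀ v, (nbG G v).card ≤ D) →
      ∀ (ν : Sym2 V → ℕ), Set.InjOn ν G.edgeSet → (∀ g ∈ G.edgeSet, ν g < D * Fintype.card V) →
      ∀ (c : V → Bool), Odd (univ.filter fun v => c v = true).card →
      (∃ (L : ℕ) (pf : Fin L → Fm ℕ), IsDer F (Ts D G ν c) pf ∧ (∃ i j, pf i = Fm.neg (pf j)) ∧
        ∑ i, (pf i).enc.length ≤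
          Cc * (Fintype.card V ^ 2 * (Nat.log 2 (Fintype.card V) + 1) ^ 3)) ∧
      (∀ k : ℕ, TwLE G k → ∃ (L : ℕ) (pf : Fin L → Fm ℕ), IsDer F (Ts D G ν c) pf ∧
        (∃ i j, pf i = Fm.neg (pf j)) ∧ L ≤ (Fintype.card V + 2) ^ Cc ∧
        ∀ i, (pf i).enc.length ≤ Cc * (k + 1) ^ 2 * (Nat.log 2 (Fintype.card V) + 1)) ∧
      (Cc ≤ Fintype.card V → ∀ N : ℕ, 1 ≤ N → N ≤ Fintype.card V →
        ∃ (L : ℕ) (pf : Fin L → Fm ℕ), IsDer F (Ts D G ν c) pf ∧
        (∃ i j, pf i = Fm.neg (pf j)) ∧
        L ≤ Fintype.card V ^ 4 ∧ (∀ i, (pf i).enc.length ≤ Fintype.card V ^ 5) ∧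
        (({A | (∃ i, A = pf i) ∧ (Fintype.card V : ℝ) ^ (2 + e) / (N : ℝ) ^ 2 <
          (A.enc.length : ℝ)}.ncard : ℕ) : ℝ) ≤
            ((N : ℝ) - 1) * (Fintype.card V : ℝ) ^ e) :=
  finalAGT D e he

end Pool.Agent.Results.MP_576eff_lc.AllGraphs
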