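import Mathlib
import Pool.Agent.H93.MX.BlkM
import Pool.Agent.H93.FG.FewD
import Pool.Agent.H85.FG.Cor
import Pool.Agent.H85.FW.Big

/-!
# Few counting gates in constant depth Frege

`Fo V`: formulas over `¬`, `→` and gates `mod a n f` of unbounded fan-in. `IsMix k`: refutations in which each line `(q, A)` has
its own modulus `q` (the gate `mod a n f` in `A` is true if the number of true formulas among `f 0, …, f (n - 1)` is `a` modulo
`q`), by modus ponens and all instances of schemes with at most `k` symbols which are true for all truth values that respect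
the gates. `Count r N`: the hypotheses of the counting principle (the points of `Fin N` have a partition into blocks of size
`r`), `r` does not divide `N`. Let `s = r / gcd (r, N)`.

If the greatest common divisor of `m` and `s` is not `1`, or `m > N ^ (r + 1)`, there are refutations of polynomial size and
constant depth with at most three `MOD_m` gates in each line. If the modulus of each line is a prime power, at most `m`, prime to `s`, then every
refutation with depth at most `d` between the gates has at least `2 ^ t` different subformulas, if `N` is at least a fixed power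
of `(k + 10) (r m (t + 1))` and every line has few gates: at most `t` gates in all, nested in any way, or at most `t` outermost
gates in each subformula and nesting at most `l` (then any number of gates in all). So for fixed prime powers `q` few
`MOD_q` gates help if and only if `q` and `s` are not relatively prime.
-/

set_option autoImplicit false

namespace Pool.Agent.Results.MP_576eff_lc.CountingGates

open Pool.Agent.H67.FG Pool.Agent.H85.FG Pool.Agent.H93.RG Pool.Agent.H3.MX

theorem few_le {V : Type} {t j l : ℕ} {A : Fo V} (h : Few t j A) (hl : j ≤ l) : Few t l A := by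
  induction hl with
  | refl => exact h
  | step _ ih => exact Pool.Agent.H93.FG2.few_succ ih

theorem result :
    (∀ m r N : ℕ, 2 ≤ r → ¬ r ∣ N → m.gcd (r / r.gcd N) ≠ 1 ∨ N ^ (r + 1) < m →
      ∃ π : List (ℕ × Fo (Finset (Fin N))), IsMix 40 (Count r N) π ∧
      (∀ x ∈ π, x.1 = m ∧ (∀ B ∈ x.2.subs, B.dep ≤ 8) ∧ x.2.gates.ncard ≤ 3) ∧
      size (π.map Prod.snd) ≤ 10 ^ 5 * N ^ (4 * r ^ 2)) ∧
    ∀ r d k l m t N : ℕ, 2 ≤ r → ¬ r ∣ N → 1 ≤ t →
      ((k + 10) * (r * m * (t + 1)) ^ (l + 12)) ^ (2 * r ^ (2 * d + 4)) ≤ N →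
      ∀ π : List (ℕ × Fo (Finset (Fin N))), IsMix k (Count r N) π →
        (∀ x ∈ π, (x.1 ≤ m ∧ IsPrimePow x.1 ∧ x.1.gcd (r / r.gcd N) = 1) ∧
          (∀ B ∈ x.2.subs, B.dep ≤ d) ∧
          (x.2.gates.ncard ≤ t ∨ (nest x.2 ≤ l ∧ ∀ B ∈ x.2.subs, B.outer.ncard ≤ t))) →
        2 ^ t ≤ {B | ∃ x ∈ π, B ∈ x.2.subs}.ncard := by
  refine ⟨fun m r N hr hrN hm => Pool.Agent.H85.FW.upper_all m r N hr hrN hm,
    fun r d k l m t N hr hrN ht hN π hπ hline => ?_⟩
  · have hmod : ∀ x ∈ π, x.1 ≤ m ∧ ∃ p e : ℕ, p.Prime ∧ ¬ p ∣ r / r.gcd N ∧ 1 ≤ e ∧ x.1 = p ^ e := by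
      intro x hx
      obtain ⟨h1, h2, h3⟩ := (hline x hx).1
      obtain ⟨p, e, hp, he, hpe⟩ := (isPrimePow_nat_iff _).1 h2
      refine ⟨h1, p, e, hp, fun hd => ?_, he, hpe.symm⟩
      have h4 : p ∣ x.1.gcd (r / r.gcd N) := Nat.dvd_gcd (by rw [← hpe]; exact dvd_pow_self p he.ne') hd
      rw [h3] at h4
      exact hp.one_lt.ne' (Nat.dvd_one.1 h4)
    have hm : 2 ≤ m := by
      obtain ⟨h, -⟩ := hπ.last
      obtain ⟨h1, p, e, hp, -, he, hx⟩ := hmod _ (List.head_mem h)
      have h2 : p ≤ p ^ e := Nat.le_self_pow (by omega) p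
      have := hp.two_le
      omega
    have hN' : ((k + 10) * (r * m * (t + 1)) ^ (l + 1 + 11)) ^ (2 * r ^ (2 * (d + 2))) ≤ N := hN
    refine Pool.Agent.H93.MX.mix_div (l := l + 1) (by omega) hrN hm (Nat.gcd_dvd_left r N) (Nat.gcd_dvd_right r N) ht
      hN' π hπ hmod fun x hx => ⟨(hline x hx).2.1, ?_⟩
    rcases (hline x hx).2.2 with h | h
    · exact few_le (few_of_gates h) (by omega)
    · exact few_le (few_of_nest l x.2 h.1 h.2) (by omega)

end Pool.Agent.Results.MP_576eff_lc.CountingGates
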