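import Mathlib
import Pool.Agent.H63.ZS.Gen3
import Pool.Agent.H6.ZF.Fz4

/-!
# From sums of squares to Frege proofs over functions of few parities

Frege lower bounds from pseudo-expectations. The size of a formula is the number of occurrences of variables,
formulas are in `¬, →`.

`Hard4 Γ K e δ`, for a set `Γ` of clauses: for all sets `Sch` of sound axiom schemes with at most `K ^ δ` symbols
(finite or infinite), with modus ponens and the clauses in `Γ` as axioms:
(1) a refutation on a blackboard with total space `S` (the sum of the sizes of the formulas on the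
blackboard) and `T` steps has `S log₂ T ≥ K ^ (2 - e)`;
(2) a refutation with lines of size at most `s` and total size `Z` has `s ≥ K ^ (1 - e)` (whatever the number and the
depth of the lines) and `Z s ≥ K ^ (4 - e)`; so it has total size at least `K ^ (2 - e / 2)`, and at least
`K ^ (4 - e) / s ^ 2` lines;
(3) so does a proof, without `Γ`, of the tautology `¬ (C₁ ∧ (C₂ ∧ …))` for clauses `C₁, C₂, …` in `Γ`;
(4) a tree-like refutation with `N` lines, all of size at most `s`, has `s log₂ N ≥ K ^ (2 - e)`;
(5) a refutation of height `h` with lines of size at most `s` has `s (h + 1) ≥ K ^ (2 - e)`.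

The variable `i : Fin M` can stand for any function `P i` of the variables of a CNF: `FolCl φ P ℓ` (`FolG Γ P ℓ`) are the
clauses of length at most `ℓ` in the variables `Fin M` which follow, for `P i` in place of `i`, from at most `ℓ` clauses of
the 3-CNF `φ` (clauses in `Γ`). If the `P i` include the variables of the CNF, then these contain its clauses of
length at most `ℓ`, and all clauses of length at most `ℓ` which define some of the `P i` from others. `Few P ℓ`:
`P` is a function of at most `ℓ` parities, each of any number of variables; `Jnt P ℓ`: of at most `ℓ` variables.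

`result`:
* (A) for all `Δ ≥ 6` and `e > 0` there is `δ > 0` such that for large `n` all but a fraction `e` of the 3-CNFs `φ`
  with `n` variables and `Δ n` clauses are unsatisfiable and satisfy, for all `M ≤ 2 ^ (n ^ δ)` and all functions
  `P 0, …, P (M - 1)` of at most `n ^ δ` parities, `Hard4 (FolCl φ P (n ^ δ)) n e δ`. So every Frege refutation of `φ` by
  formulas over parities, of any length and each counted as one variable, has size at least `n ^ (2 - o(1))`, and
  size at least `n ^ (3 - o(1))` if its lines have size `n ^ (1 + o(1))`; tree-like ones with lines of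
  size `n ^ (2 - c)` have `2 ^ (n ^ (c - o(1)))` lines, if they have at most `2 ^ (n ^ o(1))` different parities.
  For `P i` the variable `i` these are the usual Frege systems;
* (B) for all `e > 0` there is `δ > 0` such that for every `Γ` with a pseudo-expectation of degree `2 K` (`PE`: sums of
  squares of degree `2 K` do not refute `Γ`), `K` large, and clauses of length at most `K ^ δ`, and for all functions
  `P i` of at most `K ^ δ` variables, `Hard4 (FolG Γ P (K ^ δ)) K e δ`; so `Hard4 Γ K e δ` (`P i` the variable `i`);
* (C) the exponents are exact for `s` about `K ^ 2`: there are sets `Γ n` of clauses of length at most `16` on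
  `16 n` variables, with pseudo-expectations of linear degree, which satisfy `Hard4` with `K = n`, and which
  have refutations with `O(n ^ 2 (log n) ^ 2)` symbols (`Fm.len`) in every complete Frege system.

The proof of the lower bounds (`Pool/Agent/H6/QL`, `Pool/Agent/H6/QR`, `Pool/Agent/H63/ZS`) evaluates formulas
by commuting operators on the Hilbert space of the pseudo-expectation: a formula of size `s` becomes an
operator of degree about `sqrt (s λ)`, whatever its depth, which is a projection up to an error `2 ^ (- λ)`, and
the Frege rules hold up to this error. For (2), (3) two precisions are combined: a long conjunction of lines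
has a coarse value, a single line has a fine value, and both nearly agree for single lines. Going down from the
contradiction, a false line is traced back, through conjunctions of total size about `K ^ 2`, to an earlier
line which is false with a probability smaller only by a polynomial factor; this can be repeated `K ^ 2 / s`
times, and each time lines of total size about `K ^ 2` are used up.

For (A) (`Pool/Agent/H63/ZX`, `Pool/Agent/H6/ZF`): given the `P i`, there is a set `U` of a small fraction of the
variables such that each sum of at most `n ^ (1 - o(1))` of their parities has many variables in `U` or at most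
`c n` variables, and such that the equations which say that an odd number of the literals of a clause with
variables outside `U` is true still expand. The pseudo-expectation defined by these equations (`zE`) is one
of degree `n ^ (1 - o(1))` for the parities, each of degree 1, in place of the variables.
-/

set_option autoImplicit false

namespace Pool.Agent.Results.MP_576eff_lc.SquaresToFrege

open Finset Classical Pool.H6.QL Pool.Agent.H3.Frg Pool.Agent.H3.Frg2 Pool.Agent.H3.Frg4
  Pool.Agent.H81.QG Pool.Agent.H55.QT Pool.H63.ZX

theorem result :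
    (∀ Δ : ℕ, 6 ≤ Δ → ∀ e : ℝ, 0 < e → ∃ δ : ℝ, 0 < δ ∧ ∃ n0 : ℕ, ∀ n : ℕ, n0 ≤ n →
      ((univ.filter fun φ : Fin (Δ * n) → Cl n =>
        ¬ (¬ Sat φ ∧ ∀ (M : ℕ) (P : Fin M → (Fin n → Bool) → Bool), (M : ℝ) ≤ 2 ^ ((n : ℝ) ^ δ) →
          (∀ i, Few (P i) ((n : ℝ) ^ δ)) → Hard4 (FolCl φ P ((n : ℝ) ^ δ)) (n : ℝ) e δ)).card : ℝ) ≤
        e * Fintype.card (Fin (Δ * n) → Cl n)) ∧
    (∀ e : ℝ, 0 < e → ∃ δ : ℝ, 0 < δ ∧ ∃ K0 : ℕ,
      ∀ (n K : ℕ) (Γ : Set (List (Fin n × Bool))), K0 ≤ K → PE n K Γ →
      (∀ c ∈ Γ, (c.length : ℝ) ≤ (K : ℝ) ^ δ) →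
      ∀ (M : ℕ) (P : Fin M → (Fin n → Bool) → Bool), (∀ i, Jnt (P i) ((K : ℝ) ^ δ)) →
        Hard4 (FolG Γ P ((K : ℝ) ^ δ)) (K : ℝ) e δ) ∧
    ∃ n0 : ℕ, ∃ Γ : (n : ℕ) → Set (List (Fin (16 * n) × Bool)),
      (∀ n, n0 ≤ n → (∀ l ∈ Γ n, l.length ≤ 16) ∧
        PE (16 * n) ⌊(1 / 10 ^ 6 : ℝ) * n⌋₊ (Γ n)) ∧
      (∀ e : ℝ, 0 < e → ∃ δ : ℝ, 0 < δ ∧ ∃ n1 : ℕ, ∀ n, n1 ≤ n → Hard4 (Γ n) (n : ℝ) e δ) ∧
      ∀ F : Set (Fm ℕ), Pool.Agent.H90.UB.Compl F → ∃ Cc : ℕ, ∀ n, n0 ≤ n →
        ∃ (L : ℕ) (pf : Fin L → Fm (Fin (16 * n))), IsDer F (Cls (Γ n)) pf ∧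
          (∃ i j, pf i = Fm.neg (pf j)) ∧
          ∑ i, (pf i).len ≤ Cc * (n ^ 2 * (Nat.log 2 n + 1) ^ 2) :=
  ⟨fun _ hΔ _ he => Pool.H6.ZF.zxA4 (Pool.H6.ZF.hd4 Pool.H63.ZS.hard3) hΔ he,
    fun _ he => Pool.H6.ZF.zxB4 (Pool.H6.ZF.hd4 Pool.H63.ZS.hard3) he,
    Pool.H6.ZF.shp4 (Pool.H6.ZF.hd4 Pool.H63.ZS.hard3)⟩

end Pool.Agent.Results.MP_576eff_lc.SquaresToFrege
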